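import Mathlib

set_option autoImplicit false

namespace Pool.Agent.Results.MP_c8004b_pr.ThreeSizes

open Finset

/-- `e : Fin N → ℝ` is a (finite) population of mean error `m`: there is at least one item, every
error size lies in `[0,1]`, and the average of the error sizes is `m`. -/
structure IsPopulation (m : ℝ) {N : ℕ} (e : Fin N → ℝ) : Prop where
  pos : 0 < N
  mem : ∀ i, 0 ≤ e i ∧ e i ≤ 1
  mean : (∑ i, e i) / (N : ℝ) = m

/-- `F n e c` is the probability that the sum of the error sizes of `n` items drawn independently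
and uniformly (with replacement) from the population `e` is at most `c`. -/
noncomputable def F (n : ℕ) {N : ℕ} (e : Fin N → ℝ) (c : ℝ) : ℝ :=
  (Set.ncard {f : Fin n → Fin N | ∑ j, e (f j) ≤ c} : ℝ) / (N : ℝ) ^ n

/-- The population has exactly two (different) error sizes. -/
def TwoSizes {N : ℕ} (e : Fin N → ℝ) : Prop := (Set.range e).ncard = 2

/-- Upper bound for populations all of whose items have size `a` or `b` with `a < b`. -/
theorem F_le_aux (n : ℕ) (hn : 2 ≤ n) {N : ℕ} (e : Fin N → ℝ)
    (he : IsPopulation (15 / 16) e) (a b : ℝ) (hab : a < b) (hrange : Set.range e = {a, b}) :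
    F n e (15 / 16) ≤ ((1 / 16) / (1 - (15 / 16) / n)) ^ n := by
  obtain ⟨hN, hmem, hmean⟩ := he
  have hN' : (0 : ℝ) < N := by exact_mod_cast hN
  have hn' : (2 : ℝ) ≤ n := by exact_mod_cast hn
  have hval : ∀ i, e i = a ∨ e i = b := by
    intro i
    have : e i ∈ Set.range e := ⟨i, rfl⟩
    rw [hrange] at this
    simpa using this
  obtain ⟨ia, hia⟩ : ∃ i, e i = a := by
    have : a ∈ Set.range e := by rw [hrange]; simp
    simpa using this
  obtain ⟨ib, hib⟩ : ∃ i, e i = b := by
    have : b ∈ Set.range e := by rw [hrange]; simp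
    simpa using this
  have ha0 : 0 ≤ a := hia ▸ (hmem ia).1
  have hb1 : b ≤ 1 := hib ▸ (hmem ib).2
  set A : Finset (Fin N) := univ.filter (fun i => e i = a) with hA
  set K : ℕ := A.card with hK
  have hsum : ∑ i, e i = (15 / 16) * N := by
    field_simp at hmean
    linarith
  -- the sum in terms of `K`
  have hsum2 : ∑ i, e i = K * a + (N - K) * b := by
    have h1 : ∀ i, e i = b + (if e i = a then (a - b) else 0) := by
      intro i
      rcases hval i with h | h
      · simp [h]
      · rw [h, if_neg (ne_of_gt hab)]; simp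
    calc ∑ i, e i = ∑ i, (b + (if e i = a then (a - b) else 0)) :=
          Finset.sum_congr rfl (fun i _ => h1 i)
      _ = N * b + K * (a - b) := by
          rw [Finset.sum_add_distrib, ← Finset.sum_filter]
          simp only [hK, hA, Finset.sum_const, Finset.card_univ, Fintype.card_fin, nsmul_eq_mul]
      _ = K * a + (N - K) * b := by ring
  have hKN : (K : ℝ) ≤ N := by
    have : K ≤ N := by
      calc K ≤ (univ : Finset (Fin N)).card := Finset.card_le_card (Finset.filter_subset _ _)
        _ = N := by simp
    exact_mod_cast this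
  have hKpos : (0 : ℝ) < K := by
    have : 0 < K := Finset.card_pos.mpr ⟨ia, by simp [hA, hia]⟩
    exact_mod_cast this
  have hb : 15 / 16 < b := by
    by_contra hcon
    push Not at hcon
    have h1 : ∑ i, e i < ∑ _i : Fin N, (15 / 16 : ℝ) := by
      apply Finset.sum_lt_sum
      · intro i _
        rcases hval i with h | h
        · rw [h]; linarith
        · rw [h]; exact hcon
      · exact ⟨ia, Finset.mem_univ _, by rw [hia]; linarith⟩
    rw [hsum] at h1
    simp at h1
    linarith
  -- every favourable sample uses only items of size `a`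
  have hsub : {f : Fin n → Fin N | ∑ j, e (f j) ≤ 15 / 16} ⊆
      ((Fintype.piFinset (fun _ : Fin n => A) : Finset (Fin n → Fin N)) : Set (Fin n → Fin N)) := by
    intro f hf
    simp only [Set.mem_ofPred_eq] at hf
    simp only [Finset.mem_coe, Fintype.mem_piFinset]
    intro j
    rcases hval (f j) with h | h
    · simp [hA, h]
    · exfalso
      have : e (f j) ≤ ∑ j, e (f j) :=
        Finset.single_le_sum (f := fun j => e (f j)) (fun i _ => (hmem (f i)).1)
          (Finset.mem_univ j)
      rw [h] at this
      linarith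
  have hcard : (Set.ncard {f : Fin n → Fin N | ∑ j, e (f j) ≤ 15 / 16} : ℝ) ≤ (K : ℝ) ^ n := by
    have h1 := Set.ncard_le_ncard hsub (Finset.finite_toSet _)
    rw [Set.ncard_coe_finset, Fintype.card_piFinset] at h1
    simp only [Finset.prod_const, Finset.card_univ, Fintype.card_fin] at h1
    exact_mod_cast h1
  have hden : (0 : ℝ) < 1 - (15 / 16) / n := by
    have : (15 / 16 : ℝ) / n < 1 := by
      rw [div_lt_one (by linarith)]
      linarith
    linarith
  by_cases hne : {f : Fin n → Fin N | ∑ j, e (f j) ≤ 15 / 16} = ∅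
  · unfold F
    rw [hne]
    simp only [Set.ncard_empty, Nat.cast_zero, zero_div]
    positivity
  · obtain ⟨f, hf⟩ := Set.nonempty_iff_ne_empty.mpr hne
    have hfA := hsub hf
    simp only [Finset.mem_coe, Fintype.mem_piFinset] at hfA
    have hfa : ∀ j, e (f j) = a := by
      intro j
      have := hfA j
      simpa [hA] using this
    have hna : (n : ℝ) * a ≤ 15 / 16 := by
      have h1 : ∑ j, e (f j) ≤ 15 / 16 := hf
      simp only [hfa, Finset.sum_const, Finset.card_univ, Fintype.card_fin, nsmul_eq_mul] at h1
      exact h1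
    have ha : a ≤ (15 / 16) / n := by
      rw [le_div_iff₀ (by linarith)]
      linarith
    have hp : (K : ℝ) / N ≤ (1 / 16) / (1 - (15 / 16) / n) := by
      rw [div_le_div_iff₀ hN' hden]
      have h1 : (K : ℝ) * (b - a) = N * (b - 15 / 16) := by
        rw [hsum2] at hsum
        linarith
      have h2 : (K : ℝ) * (1 - a) ≤ 1 / 16 * N := by
        have : (K : ℝ) * (1 - a) = K * (1 - b) + N * (b - 15 / 16) := by
          rw [← h1]; ring
        rw [this]
        nlinarith
      have h3 : (K : ℝ) * (1 - 15 / 16 / n) ≤ K * (1 - a) := by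
        apply mul_le_mul_of_nonneg_left _ hKpos.le
        linarith
      linarith
    calc F n e (15 / 16) ≤ (K : ℝ) ^ n / (N : ℝ) ^ n := by
          unfold F
          gcongr
      _ = ((K : ℝ) / N) ^ n := by rw [div_pow]
      _ ≤ _ := by
          apply pow_le_pow_left₀ (by positivity) hp

/-- Every population of mean `15/16` with exactly two error sizes satisfies this bound. -/
theorem F_le_of_twoSizes (n : ℕ) (hn : 2 ≤ n) {N : ℕ} (e : Fin N → ℝ)
    (he : IsPopulation (15 / 16) e) (h2 : TwoSizes e) :
    F n e (15 / 16) ≤ ((1 / 16) / (1 - (15 / 16) / n)) ^ n := by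
  obtain ⟨a, b, hab, hrange⟩ := Set.ncard_eq_two.mp h2
  rcases lt_or_gt_of_ne hab with h | h
  · exact F_le_aux n hn e he a b h hrange
  · exact F_le_aux n hn e he b a h (by rw [hrange, Set.pair_comm])

/-- The witness: `k` items of error size `0`, fifteen items of error size `15/16` and
`15 k` items of error size `1`. -/
noncomputable def witness (k : ℕ) : Fin (16 * k + 15) → ℝ := fun i =>
  if (i : ℕ) < k then 0 else if (i : ℕ) < k + 15 then 15 / 16 else 1

theorem witness_sum (k : ℕ) : ∑ i, witness k i = (15 / 16) * ((16 * k + 15 : ℕ) : ℝ) := by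
  unfold witness
  rw [Fin.sum_univ_eq_sum_range (fun i : ℕ => if i < k then (0:ℝ) else if i < k + 15 then 15 / 16
    else 1) (16 * k + 15)]
  have h1 : 16 * k + 15 = (k + 15) + 15 * k := by ring
  rw [h1, Finset.sum_range_add, Finset.sum_range_add]
  have e1 : ∑ x ∈ range k, (if x < k then (0:ℝ) else if x < k + 15 then 15 / 16 else 1) = 0 := by
    apply Finset.sum_eq_zero
    intro x hx
    simp at hx
    simp [hx]
  have e2 : ∑ x ∈ range 15, (if k + x < k then (0:ℝ) else if k + x < k + 15 then 15 / 16 else 1)
      = 15 * (15 / 16) := by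
    have : ∀ x ∈ range 15, (if k + x < k then (0:ℝ) else if k + x < k + 15 then 15 / 16 else 1)
        = 15 / 16 := by
      intro x hx
      simp at hx
      simp [hx]
    rw [Finset.sum_congr rfl this]
    simp
  have e3 : ∑ x ∈ range (15 * k), (if k + 15 + x < k then (0:ℝ) else if k + 15 + x < k + 15 then
      15 / 16 else 1) = 15 * k := by
    have : ∀ x ∈ range (15 * k), (if k + 15 + x < k then (0:ℝ) else if k + 15 + x < k + 15 then
      15 / 16 else 1) = 1 := by
      intro x _
      rw [if_neg (by omega), if_neg (by omega)]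
    rw [Finset.sum_congr rfl this]
    simp
  rw [e1, e2, e3]
  push_cast
  ring

theorem witness_isPopulation (k : ℕ) : IsPopulation (15 / 16) (witness k) where
  pos := by omega
  mem := by
    intro i
    unfold witness
    split_ifs <;> norm_num
  mean := by
    rw [witness_sum]
    have : ((16 * k + 15 : ℕ) : ℝ) ≠ 0 := by positivity
    field_simp

/-- indicator of the items of error size `0` -/
noncomputable def zi (k : ℕ) (i : Fin (16 * k + 15)) : ℝ := if (i : ℕ) < k then 1 else 0

/-- indicator of the items of error size `15/16` -/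
noncomputable def vi (k : ℕ) (i : Fin (16 * k + 15)) : ℝ :=
  if k ≤ (i : ℕ) ∧ (i : ℕ) < k + 15 then 1 else 0

theorem zi_sum (k : ℕ) : ∑ i, zi k i = k := by
  unfold zi
  rw [Fin.sum_univ_eq_sum_range (fun i : ℕ => if i < k then (1:ℝ) else 0) (16 * k + 15)]
  rw [← Finset.sum_filter]
  have : (range (16 * k + 15)).filter (fun i => i < k) = range k := by
    ext x; simp; omega
  rw [this]; simp

theorem vi_sum (k : ℕ) : ∑ i, vi k i = 15 := by
  unfold vi
  rw [Fin.sum_univ_eq_sum_range (fun i : ℕ => if k ≤ i ∧ i < k + 15 then (1:ℝ) else 0)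
    (16 * k + 15)]
  rw [← Finset.sum_filter]
  have : (range (16 * k + 15)).filter (fun i => k ≤ i ∧ i < k + 15) = Finset.Ico k (k + 15) := by
    ext x; simp; omega
  rw [this]; simp

/-- the favourable samples contain the samples with all sizes `0` and those with exactly one size
`15/16` and the others `0`. -/
theorem indicator_bound (k : ℕ) (f : Fin (k + 1) → Fin (16 * k + 15)) :
    ∏ j, zi k (f j) + ∑ i, ∏ j, (if j = i then vi k (f j) else zi k (f j)) ≤
      if ∑ j, witness k (f j) ≤ 15 / 16 then (1:ℝ) else 0 := by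
  classical
  by_cases h0 : ∀ j, (f j : ℕ) < k
  · -- all zero
    have hw : ∑ j, witness k (f j) = 0 := by
      apply Finset.sum_eq_zero
      intro j _
      simp [witness, h0 j]
    have hz : ∏ j, zi k (f j) = 1 := by
      apply Finset.prod_eq_one
      intro j _
      simp [zi, h0 j]
    have hv : ∑ i, ∏ j, (if j = i then vi k (f j) else zi k (f j)) = 0 := by
      apply Finset.sum_eq_zero
      intro i _
      apply Finset.prod_eq_zero (Finset.mem_univ i)
      simp only [if_true, vi]
      rw [if_neg]
      have := h0 i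
      omega
    rw [hw, hz, hv]
    norm_num
  · push Not at h0
    obtain ⟨i0, hi0⟩ := h0
    have hz : ∏ j, zi k (f j) = 0 := by
      apply Finset.prod_eq_zero (Finset.mem_univ i0)
      simp only [zi]
      rw [if_neg (by omega)]
    have hv : ∑ i, ∏ j, (if j = i then vi k (f j) else zi k (f j)) =
        ∏ j, (if j = i0 then vi k (f j) else zi k (f j)) := by
      apply Finset.sum_eq_single i0
      · intro i _ hi
        apply Finset.prod_eq_zero (Finset.mem_univ i0)
        rw [if_neg (Ne.symm hi)]
        simp only [zi]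
        rw [if_neg (by omega)]
      · intro h
        exact absurd (Finset.mem_univ _) h
    rw [hz, hv, zero_add]
    by_cases h1 : (f i0 : ℕ) < k + 15 ∧ ∀ j, j ≠ i0 → (f j : ℕ) < k
    · have hw : ∑ j, witness k (f j) = 15 / 16 := by
        rw [Finset.sum_eq_single i0]
        · simp only [witness]
          rw [if_neg (by omega), if_pos h1.1]
        · intro j _ hj
          simp only [witness]
          rw [if_pos (h1.2 j hj)]
        · intro h
          exact absurd (Finset.mem_univ _) h
      rw [hw, if_pos (le_refl _)]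
      apply Finset.prod_le_one
      · intro j _
        split_ifs
        · simp only [vi]; split_ifs <;> norm_num
        · simp only [zi]; split_ifs <;> norm_num
      · intro j _
        split_ifs
        · simp only [vi]; split_ifs <;> norm_num
        · simp only [zi]; split_ifs <;> norm_num
    · have : ∏ j, (if j = i0 then vi k (f j) else zi k (f j)) = 0 := by
        by_cases h2 : (f i0 : ℕ) < k + 15
        · have h3 : ∃ j, j ≠ i0 ∧ k ≤ (f j : ℕ) := by
            by_contra hcon
            push Not at hcon
            exact h1 ⟨h2, hcon⟩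
          obtain ⟨j, hj, hj2⟩ := h3
          apply Finset.prod_eq_zero (Finset.mem_univ j)
          rw [if_neg hj]
          simp only [zi]
          rw [if_neg (by omega)]
        · apply Finset.prod_eq_zero (Finset.mem_univ i0)
          simp only [if_true, vi]
          rw [if_neg (by omega)]
      rw [this]
      split_ifs <;> norm_num

theorem F_witness_ge (k : ℕ) :
    ((k : ℝ) / (16 * k + 15)) ^ k ≤ F (k + 1) (witness k) (15 / 16) := by
  classical
  have hcount : (Set.ncard {f : Fin (k + 1) → Fin (16 * k + 15) |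
      ∑ j, witness k (f j) ≤ 15 / 16} : ℝ) =
      ∑ f : Fin (k + 1) → Fin (16 * k + 15),
        (if ∑ j, witness k (f j) ≤ 15 / 16 then (1:ℝ) else 0) := by
    rw [Set.ncard_eq_toFinset_card', Finset.sum_boole]
    congr 2
    ext f
    simp
  have hlow : (k : ℝ) ^ (k + 1) + (k + 1) * (15 * (k : ℝ) ^ k) ≤
      (Set.ncard {f : Fin (k + 1) → Fin (16 * k + 15) | ∑ j, witness k (f j) ≤ 15 / 16} : ℝ) := by
    rw [hcount]
    refine le_trans (le_of_eq ?_) (Finset.sum_le_sum (fun f _ => indicator_bound k f))
    rw [Finset.sum_add_distrib]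
    congr 1
    · have := Finset.prod_univ_sum (fun _ : Fin (k + 1) => (univ : Finset (Fin (16 * k + 15))))
        (fun _ x => zi k x)
      simp only [Fintype.piFinset_univ] at this
      rw [← this]
      simp [zi_sum]
    · rw [Finset.sum_comm]
      have : ∀ i : Fin (k + 1), ∑ f : Fin (k + 1) → Fin (16 * k + 15),
          ∏ j, (if j = i then vi k (f j) else zi k (f j)) = 15 * (k : ℝ) ^ k := by
        intro i
        have h := Finset.prod_univ_sum
          (fun _ : Fin (k + 1) => (univ : Finset (Fin (16 * k + 15))))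
          (fun j x => if j = i then vi k x else zi k x)
        simp only [Fintype.piFinset_univ] at h
        rw [← h]
        have h2 : ∀ j : Fin (k + 1), ∑ x, (if j = i then vi k x else zi k x) =
            if j = i then (15 : ℝ) else k := by
          intro j
          split_ifs
          · exact vi_sum k
          · exact zi_sum k
        rw [Finset.prod_congr rfl (fun j _ => h2 j)]
        rw [← Finset.mul_prod_erase univ _ (Finset.mem_univ i)]
        rw [if_pos rfl]
        have h3 : ∀ j ∈ univ.erase i, (if j = i then (15:ℝ) else k) = k := by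
          intro j hj
          rw [if_neg (Finset.ne_of_mem_erase hj)]
        rw [Finset.prod_congr rfl h3]
        simp
      rw [Finset.sum_congr rfl (fun i _ => this i)]
      simp
  unfold F
  have hpos : (0:ℝ) < (16 * k + 15) := by positivity
  have hcast : ((16 * k + 15 : ℕ) : ℝ) = 16 * (k:ℝ) + 15 := by push_cast; ring
  rw [hcast, le_div_iff₀ (by positivity), div_pow]
  refine le_trans (le_of_eq ?_) hlow
  rw [pow_succ (16 * (k:ℝ) + 15) k]
  field_simp
  ring

theorem numeric (k : ℕ) (hk : 1 ≤ k) :
    ((1 / 16 : ℝ) / (1 - (15 / 16) / ((k + 1 : ℕ) : ℝ))) ^ (k + 1) <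
      ((k : ℝ) / (16 * k + 15)) ^ k := by
  have hk' : (1:ℝ) ≤ k := by exact_mod_cast hk
  have hk0 : (0:ℝ) < k := by linarith
  have h1 : (1 / 16 : ℝ) / (1 - (15 / 16) / ((k + 1 : ℕ) : ℝ)) = (k + 1) / (16 * k + 1) := by
    push_cast
    have : (16 * (k:ℝ) + 1) ≠ 0 := by positivity
    have h2 : (k:ℝ) + 1 ≠ 0 := by positivity
    have h3 : (1 - 15 / 16 / ((k:ℝ) + 1)) = (16 * k + 1) / (16 * (k + 1)) := by
      field_simp; ring
    rw [h3]
    field_simp
  rw [h1]
  -- (1 + 1/k)^k ≤ e
  have he : (((k:ℝ) + 1) / k) ^ k ≤ Real.exp 1 := by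
    have h2 : ((k:ℝ) + 1) / k ≤ Real.exp (1 / k) := by
      have := Real.add_one_le_exp (1 / (k:ℝ))
      calc ((k:ℝ) + 1) / k = 1 / k + 1 := by field_simp; ring
        _ ≤ _ := this
    calc (((k:ℝ) + 1) / k) ^ k ≤ (Real.exp (1 / k)) ^ k :=
          pow_le_pow_left₀ (by positivity) h2 k
      _ = Real.exp 1 := by
          rw [← Real.exp_nat_mul]
          congr 1
          field_simp
  have he2 : Real.exp 1 < 2.7182818286 := Real.exp_one_lt_d9
  have hep : (0:ℝ) < Real.exp 1 := Real.exp_pos 1
  set r : ℝ := ((k:ℝ) + 1) / k with hr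
  have hr0 : 0 < r := by positivity
  have hr2 : r ≤ 2 := by
    rw [hr, div_le_iff₀ hk0]; linarith
  have hrk : 0 < r ^ k := by positivity
  -- left side
  have hL : (((k:ℝ) + 1) / (16 * k + 1)) ^ (k + 1) ≤ (r / 16) ^ (k + 1) := by
    apply pow_le_pow_left₀ (by positivity)
    rw [hr, div_div]
    apply div_le_div_of_nonneg_left (by positivity) (by positivity)
    linarith
  have hR : (1 / (16 * r)) ^ k ≤ ((k:ℝ) / (16 * k + 15)) ^ k := by
    apply pow_le_pow_left₀ (by positivity)
    rw [hr]
    have : 1 / (16 * (((k:ℝ) + 1) / k)) = k / (16 * (k + 1)) := by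
      field_simp
    rw [this]
    apply div_le_div_of_nonneg_left (by positivity) (by positivity)
    linarith
  refine lt_of_le_of_lt hL (lt_of_lt_of_le ?_ hR)
  rw [div_pow r 16 (k + 1), div_pow 1 (16 * r) k, one_pow, mul_pow,
    div_lt_div_iff₀ (by positivity) (by positivity)]
  rw [pow_succ r k, pow_succ (16:ℝ) k]
  have h16 : (0:ℝ) < 16 ^ k := by positivity
  have hx : r ^ k * r * (r ^ k) < 16 := by
    have h2 : r ^ k * r ^ k ≤ Real.exp 1 * Real.exp 1 := by
      apply mul_le_mul he he hrk.le hep.le
    have h3 : Real.exp 1 * Real.exp 1 < 7.5 := by nlinarith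
    nlinarith
  calc r ^ k * r * (16 ^ k * r ^ k) = (r ^ k * r * (r ^ k)) * 16 ^ k := by ring
    _ < 16 * 16 ^ k := by apply mul_lt_mul_of_pos_right hx h16
    _ = 1 * (16 ^ k * 16) := by ring

/-- **Main theorem.** For every sample size `n ≥ 2`, mean error `m = 15/16` and threshold
`c = 15/16 < n m`, there is a population `e` of mean `m` (with three error sizes `0`, `15/16`, `1`)
and a number `B < F n e c` such that *every* population of mean `m` with exactly two error sizes
has `F n e' c ≤ B`. In particular no population with exactly two error sizes (whether or not one of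
them is `0` or `1`) maximises `F`, nor even comes arbitrarily close to the supremum. -/
theorem result (n : ℕ) (hn : 2 ≤ n) :
    (15 / 16 : ℝ) < n * (15 / 16) ∧
    ∃ (N : ℕ) (e : Fin N → ℝ), IsPopulation (15 / 16) e ∧
      ∃ B : ℝ, B < F n e (15 / 16) ∧
        ∀ (N' : ℕ) (e' : Fin N' → ℝ), IsPopulation (15 / 16) e' → TwoSizes e' →
          F n e' (15 / 16) ≤ B := by
  constructor
  · have : (2:ℝ) ≤ n := by exact_mod_cast hn
    linarith
  · obtain ⟨k, rfl⟩ : ∃ k, n = k + 1 := ⟨n - 1, by omega⟩
    refine ⟨16 * k + 15, witness k, witness_isPopulation k, _,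
      lt_of_lt_of_le (numeric k (by omega)) (F_witness_ge k), ?_⟩
    intro N' e' he' h2
    exact F_le_of_twoSizes (k + 1) hn e' he' h2

end Pool.Agent.Results.MP_c8004b_pr.ThreeSizes
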